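import Pool.Agent.Lib.MP_2964cc_an.Space

set_option autoImplicit false
open scoped ComplexOrder MatrixOrder ENNReal
open Matrix

/-!
# A normed space other than `ℂ`, `ℓ_1^2`, `ℓ_∞^2` with a unique operator space structure

`min(E)`, `max(E)` and `α(E)` are defined word for word as in the problem file. The space is the
span of `cos` and `sin` in `C([0, π/2])`. By the theorem `E_unique` of the library a matrix over
`E` of `min` norm at most `1` is `a · diag(d) · b` with `‖d k‖ ≤ 1`, `‖a‖² ≤ t`, `‖b‖² ≤ t`,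
for each `t > 1`; such a factorisation bounds the norm of `(u (x i j))` by `t` for every linear
contraction `u : E → B(H)`.
-/

namespace Pool.Agent.Results.MP_2964cc_an.UniqueOperatorSpace

/-- The operator `(T i j)` on `H^n`, the Hilbert direct sum of `n` copies of `H`:
it maps `v` to the vector with `i`-th entry `∑ j, T i j (v j)`. -/
noncomputable def blockOp {H : Type} [NormedAddCommGroup H] [InnerProductSpace ℂ H] {n : ℕ}
    (T : Fin n → Fin n → (H →L[ℂ] H)) :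
    PiLp 2 (fun _ : Fin n => H) →L[ℂ] PiLp 2 (fun _ : Fin n => H) :=
  ((PiLp.continuousLinearEquiv 2 ℂ (fun _ : Fin n => H)).symm :
      (Fin n → H) →L[ℂ] PiLp 2 (fun _ : Fin n => H)).comp
    (ContinuousLinearMap.pi fun i => ∑ j, (T i j).comp (PiLp.proj 2 (fun _ : Fin n => H) j))

/-- The norm of `(x i j)` in `M_n(min(E))`: the supremum of the operator norms (on `ℂ^n` with the
Euclidean norm) of the scalar matrices `(f (x i j))`, over the functionals `f` on `E` with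
`‖f‖ ≤ 1`. -/
noncomputable def minNorm {E : Type} [NormedAddCommGroup E] [NormedSpace ℂ E] {n : ℕ}
    (x : Fin n → Fin n → E) : ℝ≥0∞ :=
  ⨆ (f : E →L[ℂ] ℂ) (_ : ‖f‖ ≤ 1),
    ENNReal.ofReal ‖Matrix.toEuclideanCLM (n := Fin n) (𝕜 := ℂ) (Matrix.of fun i j => f (x i j))‖

/-- The norm of `(x i j)` in `M_n(max(E))`: the supremum of the operator norms (on `H^n`) of
`(u (x i j))`, over all Hilbert spaces `H` and all linear contractions `u : E → B(H)`. -/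
noncomputable def maxNorm {E : Type} [NormedAddCommGroup E] [NormedSpace ℂ E] {n : ℕ}
    (x : Fin n → Fin n → E) : ℝ≥0∞ :=
  ⨆ (H : Type) (_ : NormedAddCommGroup H) (_ : InnerProductSpace ℂ H) (_ : CompleteSpace H)
    (u : E →L[ℂ] (H →L[ℂ] H)) (_ : ‖u‖ ≤ 1), ENNReal.ofReal ‖blockOp fun i j => u (x i j)‖

/-- `α(E)`: the supremum over `n` of the norm of the identity map from `M_n(min(E))` to
`M_n(max(E))`. -/
noncomputable def alpha (E : Type) [NormedAddCommGroup E] [NormedSpace ℂ E] : ℝ≥0∞ :=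
  ⨆ (n : ℕ) (x : Fin n → Fin n → E) (_ : minNorm x ≤ 1), maxNorm x

theorem blockOp_apply {H : Type} [NormedAddCommGroup H] [InnerProductSpace ℂ H] {n : ℕ}
    (T : Fin n → Fin n → (H →L[ℂ] H)) (v : PiLp 2 (fun _ : Fin n => H)) (i : Fin n) :
    blockOp T v i = ∑ j, T i j (v j) := by
  simp [blockOp]

/-- The Gram identity. -/
theorem gram {H : Type} [NormedAddCommGroup H] [InnerProductSpace ℂ H] {m n : Type} [Fintype m]
    [Fintype n] (c : Matrix m n ℂ) (v : n → H) :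
    ∑ k, ((‖∑ j, c k j • v j‖ ^ 2 : ℝ) : ℂ) =
      ∑ j, ∑ j', (cᴴ * c) j j' * inner ℂ (v j) (v j') := by
  have h1 : ∀ k, ((‖∑ j, c k j • v j‖ ^ 2 : ℝ) : ℂ) =
      ∑ j, ∑ j', (star (c k j) * c k j') * inner ℂ (v j) (v j') := by
    intro k
    have h := inner_self_eq_norm_sq_to_K (𝕜 := ℂ) (∑ j, c k j • v j)
    rw [sum_inner] at h
    simp only [inner_sum, inner_smul_left, inner_smul_right] at h
    push_cast
    rw [show ((‖∑ j, c k j • v j‖ : ℂ) ^ 2) = ((‖∑ j, c k j • v j‖ : ℝ) : ℂ) ^ 2 from rfl]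
    refine h.symm.trans ?_
    refine Finset.sum_congr rfl fun j _ => Finset.sum_congr rfl fun j' _ => ?_
    rw [starRingEnd_apply]
    ring
  rw [Finset.sum_congr rfl fun k _ => h1 k, Finset.sum_comm]
  refine Finset.sum_congr rfl fun j _ => ?_
  rw [Finset.sum_comm]
  refine Finset.sum_congr rfl fun j' _ => ?_
  rw [Matrix.mul_apply, Finset.sum_mul]
  rfl

/-- If `t - cᴴ c` is positive semidefinite, then `c ⊗ id_H` has norm at most `√t`. -/
theorem gram_le {H : Type} [NormedAddCommGroup H] [InnerProductSpace ℂ H] {m n : Type} [Fintype m]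
    [Fintype n] [DecidableEq n] (c : Matrix m n ℂ) (t : ℝ)
    (hc : ((t : ℂ) • (1 : Matrix n n ℂ) - cᴴ * c).PosSemidef) (v : n → H) :
    ∑ k, ‖∑ j, c k j • v j‖ ^ 2 ≤ t * ∑ j, ‖v j‖ ^ 2 := by
  obtain ⟨B, hB⟩ := CStarAlgebra.nonneg_iff_eq_star_mul_self.mp hc.nonneg
  rw [star_eq_conjTranspose] at hB
  have h1 := gram c v
  have h2 := gram B v
  have h3 : ∑ j, ∑ j', ((t : ℂ) • (1 : Matrix n n ℂ)) j j' * inner ℂ (v j) (v j') =
      ((t * ∑ j, ‖v j‖ ^ 2 : ℝ) : ℂ) := by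
    push_cast
    rw [Finset.mul_sum]
    refine Finset.sum_congr rfl fun j _ => ?_
    rw [Finset.sum_eq_single j]
    · rw [Matrix.smul_apply, Matrix.one_apply_eq, smul_eq_mul, mul_one,
        inner_self_eq_norm_sq_to_K]
      rfl
    · intro j' _ hj'
      rw [Matrix.smul_apply, Matrix.one_apply_ne hj'.symm]
      simp
    · intro h
      exact absurd (Finset.mem_univ _) h
  have h4 : ∑ k, ((‖∑ j, B k j • v j‖ ^ 2 : ℝ) : ℂ) =
      ((t * ∑ j, ‖v j‖ ^ 2 : ℝ) : ℂ) - ∑ k, ((‖∑ j, c k j • v j‖ ^ 2 : ℝ) : ℂ) := by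
    rw [h2, h1, ← h3, ← Finset.sum_sub_distrib]
    refine Finset.sum_congr rfl fun j _ => ?_
    rw [← Finset.sum_sub_distrib]
    refine Finset.sum_congr rfl fun j' _ => ?_
    rw [← hB, Matrix.sub_apply, sub_mul]
  have h5 : ∑ k, ‖∑ j, B k j • v j‖ ^ 2 =
      (t * ∑ j, ‖v j‖ ^ 2) - ∑ k, ‖∑ j, c k j • v j‖ ^ 2 := by
    rw [← Complex.ofReal_sum, ← Complex.ofReal_sum, ← Complex.ofReal_sub] at h4
    exact_mod_cast h4
  have h6 : 0 ≤ ∑ k, ‖∑ j, B k j • v j‖ ^ 2 := Finset.sum_nonneg fun k _ => sq_nonneg _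
  linarith

/-- `t - a aᴴ` positive semidefinite gives `t - aᴴ a` positive semidefinite. -/
theorem psd_adjoint {m n : Type} [Fintype m] [Fintype n] [DecidableEq m] [DecidableEq n]
    (a : Matrix m n ℂ) {t : ℝ} (ht : 0 < t)
    (h : ((t : ℂ) • (1 : Matrix m m ℂ) - a * aᴴ).PosSemidef) :
    ((t : ℂ) • (1 : Matrix n n ℂ) - aᴴ * a).PosSemidef := by
  have htC : (t : ℂ) ≠ 0 := by exact_mod_cast ht.ne'
  have hs : (Real.sqrt t : ℂ) ≠ 0 := by
    have := (Real.sqrt_pos.2 ht).ne'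
    exact_mod_cast this
  have hs2 : (Real.sqrt t : ℂ) * (Real.sqrt t : ℂ) = (t : ℂ) := by
    have := Real.mul_self_sqrt ht.le
    exact_mod_cast this
  have hstar : star ((Real.sqrt t : ℂ)⁻¹) = ((Real.sqrt t : ℂ)⁻¹) := by
    rw [star_inv₀]
    congr 1
    exact Complex.conj_ofReal _
  have hinv : ((Real.sqrt t : ℂ)⁻¹) * ((Real.sqrt t : ℂ)⁻¹) = (t : ℂ)⁻¹ := by
    rw [← mul_inv, hs2]
  have e1 : (1 : Matrix m m ℂ) - (((Real.sqrt t : ℂ)⁻¹) • a) * (((Real.sqrt t : ℂ)⁻¹) • a)ᴴ =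
      ((t⁻¹ : ℝ) : ℂ) • ((t : ℂ) • (1 : Matrix m m ℂ) - a * aᴴ) := by
    rw [Matrix.conjTranspose_smul, hstar, Matrix.smul_mul, Matrix.mul_smul, smul_smul, hinv,
      smul_sub, smul_smul]
    push_cast
    rw [inv_mul_cancel₀ htC, one_smul]
  have h1 : ((1 : Matrix m m ℂ) -
      (((Real.sqrt t : ℂ)⁻¹) • a) * (((Real.sqrt t : ℂ)⁻¹) • a)ᴴ).PosSemidef := by
    rw [e1]
    refine h.smul ?_
    have : 0 ≤ t⁻¹ := by positivity
    exact_mod_cast this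
  have h2 := Pool.Agent.MP2964cc.contraction_adjoint _ h1
  have e2 : ((t : ℂ) • (1 : Matrix n n ℂ) - aᴴ * a) = (t : ℂ) •
      ((1 : Matrix n n ℂ) - (((Real.sqrt t : ℂ)⁻¹) • a)ᴴ * (((Real.sqrt t : ℂ)⁻¹) • a)) := by
    rw [Matrix.conjTranspose_smul, hstar, Matrix.smul_mul, Matrix.mul_smul, smul_smul, hinv,
      smul_sub, smul_smul, mul_inv_cancel₀ htC, one_smul]
  rw [e2]
  refine h2.smul ?_
  exact_mod_cast ht.le

/-- A factorisation of `x` through a diagonal matrix bounds the norm of `(u (x i j))`. -/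
theorem blockOp_le {E : Type} [NormedAddCommGroup E] [NormedSpace ℂ E] {n N : ℕ}
    (x : Fin n → Fin n → E) {t : ℝ} (ht : 0 < t)
    (a : Matrix (Fin n) (Fin N) ℂ) (b : Matrix (Fin N) (Fin n) ℂ) (d : Fin N → E)
    (hd : ∀ k, ‖d k‖ ≤ 1) (hx : ∀ i j, x i j = ∑ k, (a i k * b k j) • d k)
    (ha : (((t : ℂ) • (1 : Matrix (Fin n) (Fin n) ℂ) - a * a.conjTranspose).PosSemidef))
    (hb : (((t : ℂ) • (1 : Matrix (Fin n) (Fin n) ℂ) - b.conjTranspose * b).PosSemidef))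
    {H : Type} [NormedAddCommGroup H] [InnerProductSpace ℂ H] (u : E →L[ℂ] (H →L[ℂ] H))
    (hu : ‖u‖ ≤ 1) :
    ‖blockOp fun i j => u (x i j)‖ ≤ t := by
  refine ContinuousLinearMap.opNorm_le_bound _ ht.le fun v => ?_
  set w : Fin N → H := fun k => u (d k) (∑ j, b k j • v j) with hw
  have h1 : ∀ i, (blockOp fun i j => u (x i j)) v i = ∑ k, a i k • w k := by
    intro i
    rw [blockOp_apply]
    have h2 : ∀ j, u (x i j) (v j) = ∑ k, (a i k * b k j) • u (d k) (v j) := by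
      intro j
      rw [hx i j, map_sum, _root_.sum_apply]
      refine Finset.sum_congr rfl fun k _ => ?_
      rw [map_smul]
      rfl
    rw [Finset.sum_congr rfl fun j _ => h2 j, Finset.sum_comm]
    refine Finset.sum_congr rfl fun k _ => ?_
    simp only [hw]
    rw [map_sum, Finset.smul_sum]
    refine Finset.sum_congr rfl fun j _ => ?_
    rw [map_smul, smul_smul]
  have h3 : ∑ k, ‖w k‖ ^ 2 ≤ t * ∑ j, ‖v j‖ ^ 2 := by
    refine le_trans (Finset.sum_le_sum fun k _ => ?_) (gram_le b t hb fun j => v j)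
    have h4 : ‖w k‖ ≤ ‖∑ j, b k j • v j‖ := by
      have h5 : ‖u (d k)‖ ≤ 1 := by
        calc ‖u (d k)‖ ≤ ‖u‖ * ‖d k‖ := u.le_opNorm _
          _ ≤ 1 * 1 := mul_le_mul hu (hd k) (norm_nonneg _) zero_le_one
          _ = 1 := one_mul 1
      calc ‖w k‖ ≤ ‖u (d k)‖ * ‖∑ j, b k j • v j‖ := (u (d k)).le_opNorm _
        _ ≤ 1 * ‖∑ j, b k j • v j‖ := mul_le_mul_of_nonneg_right h5 (norm_nonneg _)
        _ = _ := one_mul _
    exact pow_le_pow_left₀ (norm_nonneg _) h4 2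
  have h6 : ∑ i, ‖∑ k, a i k • w k‖ ^ 2 ≤ t * ∑ k, ‖w k‖ ^ 2 :=
    gram_le a t (psd_adjoint a ht ha) w
  have h7 : ‖(blockOp fun i j => u (x i j)) v‖ ^ 2 ≤ (t * ‖v‖) ^ 2 := by
    rw [PiLp.norm_sq_eq_of_L2, mul_pow, PiLp.norm_sq_eq_of_L2]
    calc ∑ i, ‖(blockOp fun i j => u (x i j)) v i‖ ^ 2 = ∑ i, ‖∑ k, a i k • w k‖ ^ 2 :=
          Finset.sum_congr rfl fun i _ => by rw [h1 i]
      _ ≤ t * ∑ k, ‖w k‖ ^ 2 := h6
      _ ≤ t * (t * ∑ j, ‖v j‖ ^ 2) := mul_le_mul_of_nonneg_left h3 ht.le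
      _ = t ^ 2 * ∑ j, ‖v j‖ ^ 2 := by ring
  exact (pow_le_pow_iff_left₀ (norm_nonneg _) (by positivity) two_ne_zero).1 h7

/-- A matrix of operator norm at most `1` satisfies `1 - M Mᴴ ≥ 0`. -/
theorem psd_of_norm {n : ℕ} (M : Matrix (Fin n) (Fin n) ℂ)
    (h : ‖Matrix.toEuclideanCLM (n := Fin n) (𝕜 := ℂ) M‖ ≤ 1) :
    ((((1 : ℝ) ^ 2 : ℝ) : ℂ) • (1 : Matrix (Fin n) (Fin n) ℂ) - M * Mᴴ).PosSemidef := by
  have h0 : (((1 : ℝ) ^ 2 : ℝ) : ℂ) • (1 : Matrix (Fin n) (Fin n) ℂ) = 1 := by simp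
  rw [h0]
  have hT : ‖Matrix.toEuclideanCLM (n := Fin n) (𝕜 := ℂ) Mᴴ‖ ≤ 1 := by
    have e : Matrix.toEuclideanCLM (n := Fin n) (𝕜 := ℂ) Mᴴ =
        star (Matrix.toEuclideanCLM (n := Fin n) (𝕜 := ℂ) M) := by
      rw [← map_star, star_eq_conjTranspose]
    rw [e, ContinuousLinearMap.star_eq_adjoint, LinearIsometryEquiv.norm_map]
    exact h
  have hself : ∀ y : Fin n → ℂ, star y ⬝ᵥ y = (((‖WithLp.toLp 2 y‖ : ℝ) ^ 2 : ℝ) : ℂ) := by
    intro y
    have h1 := inner_self_eq_norm_sq_to_K (𝕜 := ℂ) (WithLp.toLp 2 y : EuclideanSpace ℂ (Fin n))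
    rw [EuclideanSpace.inner_eq_star_dotProduct] at h1
    push_cast
    rw [dotProduct_comm]
    exact h1
  refine Matrix.PosSemidef.of_dotProduct_mulVec_nonneg ?_ fun x => ?_
  · unfold Matrix.IsHermitian
    rw [conjTranspose_sub, conjTranspose_one, conjTranspose_mul, conjTranspose_conjTranspose]
  · have h2 : star x ⬝ᵥ ((1 - M * Mᴴ) *ᵥ x) = star x ⬝ᵥ x - star (Mᴴ *ᵥ x) ⬝ᵥ (Mᴴ *ᵥ x) := by
      rw [Matrix.sub_mulVec, Matrix.one_mulVec, dotProduct_sub, ← Matrix.mulVec_mulVec,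
        Matrix.star_mulVec, conjTranspose_conjTranspose, Matrix.dotProduct_mulVec]
    rw [h2, hself, hself, ← Complex.ofReal_sub]
    have h3 : ‖WithLp.toLp 2 (Mᴴ *ᵥ x)‖ ≤ ‖WithLp.toLp 2 x‖ := by
      have h4 := (Matrix.toEuclideanCLM (n := Fin n) (𝕜 := ℂ) Mᴴ).le_opNorm (WithLp.toLp 2 x)
      rw [Matrix.toEuclideanCLM_toLp] at h4
      refine h4.trans ?_
      calc _ ≤ 1 * ‖(WithLp.toLp 2 x : EuclideanSpace ℂ (Fin n))‖ :=
            mul_le_mul_of_nonneg_right hT (norm_nonneg _)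
        _ = _ := one_mul _
    have h5 : ‖WithLp.toLp 2 (Mᴴ *ᵥ x)‖ ^ 2 ≤ ‖WithLp.toLp 2 x‖ ^ 2 :=
      pow_le_pow_left₀ (norm_nonneg _) h3 2
    have h6 : 0 ≤ ‖WithLp.toLp 2 x‖ ^ 2 - ‖WithLp.toLp 2 (Mᴴ *ᵥ x)‖ ^ 2 := by linarith
    exact_mod_cast h6

/-- The upper bound. -/
theorem alpha_le : alpha Pool.Agent.MP2964cc.E ≤ 1 := by
  unfold alpha
  refine iSup_le fun n => iSup_le fun x => iSup_le fun hx => ?_
  unfold maxNorm
  refine iSup_le fun H => iSup_le fun _ => iSup_le fun _ => iSup_le fun _ => iSup_le fun u =>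
    iSup_le fun hu => ?_
  rw [ENNReal.ofReal_le_one]
  refine le_of_forall_gt_imp_ge_of_dense fun t ht => ?_
  have ht0 : (0 : ℝ) < t := lt_trans one_pos ht
  obtain ⟨N, a, b, d, hd, hxd, ha, hb⟩ := Pool.Agent.MP2964cc.E_unique n (Matrix.of x) 1 t zero_le_one ht (by
    intro f hf
    refine psd_of_norm _ ?_
    rw [← ENNReal.ofReal_le_one]
    refine le_trans ?_ hx
    exact le_iSup₂_of_le f hf le_rfl)
  exact blockOp_le x ht0 a b d hd (fun i j => hxd i j) ha hb u hu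

/-- The lower bound holds for every nontrivial space. -/
theorem le_alpha (E : Type) [NormedAddCommGroup E] [NormedSpace ℂ E] [Nontrivial E] :
    1 ≤ alpha E := by
  obtain ⟨v0, hv0⟩ := exists_ne (0 : E)
  have hn0 : (‖v0‖ : ℂ) ≠ 0 := by
    have := norm_ne_zero_iff.2 hv0
    exact_mod_cast this
  obtain ⟨v, hv⟩ : ∃ v : E, ‖v‖ = 1 := by
    refine ⟨(‖v0‖ : ℂ)⁻¹ • v0, ?_⟩
    rw [norm_smul, norm_inv, Complex.norm_real, norm_norm,
      inv_mul_cancel₀ (norm_ne_zero_iff.2 hv0)]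
  have hvne : v ≠ 0 := by
    intro h
    rw [h, norm_zero] at hv
    exact zero_ne_one hv
  obtain ⟨g, hg, hgv⟩ := exists_dual_vector ℂ v (norm_ne_zero_iff.2 hvne)
  have hgv1 : g v = 1 := by
    rw [hgv, hv]
    norm_num
  have hmin : minNorm (fun _ _ : Fin 1 => v) ≤ 1 := by
    refine iSup_le fun f => iSup_le fun hf => ?_
    rw [ENNReal.ofReal_le_one]
    refine ContinuousLinearMap.opNorm_le_bound _ zero_le_one fun y => ?_
    have h1 : ‖f v‖ ≤ 1 := by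
      calc ‖f v‖ ≤ ‖f‖ * ‖v‖ := f.le_opNorm v
        _ ≤ 1 * 1 := mul_le_mul hf hv.le (norm_nonneg _) zero_le_one
        _ = 1 := one_mul 1
    have h2 : Matrix.toEuclideanCLM (n := Fin 1) (𝕜 := ℂ) (Matrix.of fun _ _ => f v) y =
        f v • y := by
      ext i
      rw [Matrix.ofLp_toEuclideanCLM]
      simp [Matrix.mulVec, dotProduct, Fin.eq_zero i]
    rw [h2, norm_smul]
    exact mul_le_mul_of_nonneg_right h1 (norm_nonneg _)
  refine le_iSup_of_le 1 (le_iSup_of_le (fun _ _ => v) (le_iSup_of_le hmin ?_))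
  set u : E →L[ℂ] (ℂ →L[ℂ] ℂ) := ContinuousLinearMap.smulRightL ℂ E (ℂ →L[ℂ] ℂ) g
    (ContinuousLinearMap.id ℂ ℂ) with hu
  have huv : ∀ e, u e = g e • ContinuousLinearMap.id ℂ ℂ := fun e => rfl
  have hu1 : ‖u‖ ≤ 1 := by
    refine ContinuousLinearMap.opNorm_le_bound _ zero_le_one fun e => ?_
    rw [huv, norm_smul]
    calc ‖g e‖ * ‖ContinuousLinearMap.id ℂ ℂ‖ ≤ (‖g‖ * ‖e‖) * 1 :=
          mul_le_mul (g.le_opNorm e) ContinuousLinearMap.norm_id_le (norm_nonneg _)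
            (by positivity)
      _ = 1 * ‖e‖ := by rw [hg, mul_one]
  refine le_iSup_of_le ℂ (le_iSup_of_le inferInstance (le_iSup_of_le inferInstance
    (le_iSup_of_le inferInstance (le_iSup_of_le u (le_iSup_of_le hu1 ?_)))))
  rw [ENNReal.one_le_ofReal]
  set y : PiLp 2 (fun _ : Fin 1 => ℂ) := WithLp.toLp 2 (fun _ => (1 : ℂ)) with hy
  have hyn : ‖y‖ = 1 := by
    have h1 : ‖y‖ ^ 2 = 1 := by
      rw [PiLp.norm_sq_eq_of_L2]
      simp [hy]
    have h2 : 0 ≤ ‖y‖ := norm_nonneg _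
    nlinarith
  have hTy : (blockOp fun _ _ : Fin 1 => u v) y = y := by
    ext i
    rw [blockOp_apply]
    simp [huv, hgv1, hy]
  have h3 := (blockOp fun _ _ : Fin 1 => u v).le_opNorm y
  rw [hTy, hyn, mul_one] at h3
  exact h3

/-- There is a nonzero complex normed space `E` with `α(E) = 1` that is isometric to none of `ℂ`,
`ℓ_1^2`, `ℓ_∞^2`. -/
theorem result : ∃ (E : Type) (_ : NormedAddCommGroup E) (_ : NormedSpace ℂ E),
    Nontrivial E ∧ alpha E = 1 ∧ ¬ Nonempty (E ≃ₗᵢ[ℂ] ℂ) ∧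
      ¬ Nonempty (E ≃ₗᵢ[ℂ] PiLp 1 (fun _ : Fin 2 => ℂ)) ∧
      ¬ Nonempty (E ≃ₗᵢ[ℂ] (Fin 2 → ℂ)) := by
  have := Pool.Agent.MP2964cc.E_nontrivial
  exact ⟨Pool.Agent.MP2964cc.E, inferInstance, inferInstance, this,
    le_antisymm alpha_le (le_alpha _), Pool.Agent.MP2964cc.not_C, Pool.Agent.MP2964cc.not_l1,
    Pool.Agent.MP2964cc.not_linf⟩

end Pool.Agent.Results.MP_2964cc_an.UniqueOperatorSpace
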